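import Mathlib
import Pool.Agent.Lib.MP_2f3286_ag.Pt.Unr

/-!
# The place of a point
-/

open Polynomial IntermediateField

namespace Pool.Agent.Lib.MP_2f3286_ag.SFull

open Pool.Agent.Lib.MP_2f3286_ag.Pt

variable {k K M kb : Type*} [Field k] [CharZero k] [Field K] [Field M] [Field kb] [Algebra k kb]
  [IsAlgClosed kb] [Algebra.IsAlgebraic k kb] [Algebra k K] [Algebra K M] [Algebra kb M]
  [Algebra k M] [IsScalarTower k K M] [IsScalarTower k kb M] [Algebra.IsAlgebraic K M]

/-- The place of a point of an affine curve. -/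
theorem exists_place (t : K) (ht : Transcendental k t) [FiniteDimensional (adjoin k {t}) K]
    (R : Subalgebra k K) (htR : t ∈ R) (Ψ : integralClosure R M →+* kb) (hΨ : IsPt R M kb Ψ) :
    ∃ (A : ValuationSubring M) (ψ : A →+* kb),
      (∀ x, x ∈ A ↔ ∃ a b : integralClosure R M, Ψ b ≠ 0 ∧ x * b = a) ∧
      (∀ b : integralClosure R M, ∃ h : (b : M) ∈ A, ψ ⟨b, h⟩ = Ψ b) ∧
      (∀ (x : A) (a b : integralClosure R M), (x : M) * b = a → ψ x * Ψ b = Ψ a) ∧
      ∀ x : A, ψ x ≠ 0 → (x : M)⁻¹ ∈ A := by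
  obtain ⟨A, hA, hB, -, -⟩ := Unr.exists_val (M := M) R t ht htR Ψ hΨ
  choose! p q hpq using fun (x : A) => (hA x).mp x.2
  have hq : ∀ x : A, Ψ (q x) ≠ 0 := fun x => (hpq x).1
  have hp : ∀ x : A, (x : M) * q x = p x := fun x => (hpq x).2
  have huni : ∀ (x : A) (a b : integralClosure R M), (x : M) * b = a →
      Ψ (p x) / Ψ (q x) * Ψ b = Ψ a := by
    intro x a b hab
    have h1 : p x * b = a * q x := by
      apply Subtype.ext
      push_cast
      rw [← hp, ← hab]
      ring
    have h2 := congrArg Ψ h1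
    rw [map_mul, map_mul] at h2
    rw [div_mul_eq_mul_div, h2, mul_div_cancel_right₀ _ (hq x)]
  have key : ∀ (x : A) (c : kb), (∃ a b : integralClosure R M, Ψ b ≠ 0 ∧ (x : M) * b = a ∧
      c * Ψ b = Ψ a) → Ψ (p x) / Ψ (q x) = c := by
    rintro x c ⟨a, b, hb, hab, hc⟩
    have := huni x a b hab
    rw [← hc] at this
    exact mul_right_cancel₀ hb this
  let ψ : A →+* kb :=
    { toFun := fun x => Ψ (p x) / Ψ (q x)
      map_one' := key 1 1 ⟨1, 1, by simp, by simp, by simp⟩
      map_zero' := key 0 0 ⟨0, 1, by simp, by simp, by simp⟩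
      map_add' := fun x y => key _ _ ⟨p x * q y + p y * q x, q x * q y, by
          rw [map_mul]; exact mul_ne_zero (hq x) (hq y), by
          push_cast
          rw [← hp, ← hp]
          ring, by
          rw [map_mul, map_add, map_mul, map_mul]
          field_simp [hq x, hq y]⟩
      map_mul' := fun x y => key _ _ ⟨p x * p y, q x * q y, by
          rw [map_mul]; exact mul_ne_zero (hq x) (hq y), by
          push_cast
          rw [← hp, ← hp]
          ring, by
          rw [map_mul, map_mul]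
          field_simp [hq x, hq y]⟩ }
  refine ⟨A, ψ, hA, fun b => ⟨hB b, key _ _ ⟨b, 1, by simp, by simp, by simp⟩⟩, huni, ?_⟩
  intro x hx
  rw [hA]
  have hpx : Ψ (p x) ≠ 0 := by
    intro h0
    apply hx
    change Ψ (p x) / Ψ (q x) = 0
    rw [h0, zero_div]
  have hx0 : (x : M) ≠ 0 := by
    intro h0
    apply hpx
    have h1 : p x = 0 := by
      apply Subtype.ext
      rw [← hp, h0, zero_mul]
      rfl
    rw [h1, map_zero]
  refine ⟨q x, p x, hpx, ?_⟩
  rw [← hp, inv_mul_cancel_left₀ hx0]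

end Pool.Agent.Lib.MP_2f3286_ag.SFull
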