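import Mathlib
import Pool.Agent.Lib.MP_2f3286_ag.Top.Defs

/-!
# Sections of places with a residue field larger than `k`
-/

namespace Pool.Agent.Lib.MP_2f3286_ag.Sel

/-- `(A, ψ)` is a place of `M` over `kb`, with residue field of `K ∩ A` finite over `k`, and over this
residue field the section `s` is the section of the place: `A` is a valuation ring of `M` containing
`kb`, `ψ : A → kb` is the identity on `kb` and its kernel is the maximal ideal, the automorphisms `σ`
of `kb` over `k` which fix all values `ψ f` with `f` in `K ∩ A` form an open subgroup, and for these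
`σ` the automorphism `s σ` preserves `A` and induces `σ` on the values. -/
def IsSectionAt {k kb K M : Type*} [Field k] [Field kb] [Algebra k kb] [Field K] [Field M]
    [Algebra K M] [Algebra kb M] (s : Gal(kb/k) →* Gal(M/K)) (A : ValuationSubring M)
    (ψ : A →+* kb) : Prop :=
  (∀ a : kb, ∃ h : algebraMap kb M a ∈ A, ψ ⟨algebraMap kb M a, h⟩ = a) ∧
  (∀ x : A, ψ x ≠ 0 → (x : M)⁻¹ ∈ A) ∧
  IsOpen {σ : Gal(kb/k) | ∀ (f : K) (h : algebraMap K M f ∈ A), σ (ψ ⟨_, h⟩) = ψ ⟨_, h⟩} ∧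
  ∀ σ : Gal(kb/k), (∀ (f : K) (h : algebraMap K M f ∈ A), σ (ψ ⟨_, h⟩) = ψ ⟨_, h⟩) →
    ∀ x : A, ∃ h : s σ x ∈ A, ψ ⟨s σ x, h⟩ = σ (ψ x)

end Pool.Agent.Lib.MP_2f3286_ag.Sel
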