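import Mathlib
import Pool.Agent.Lib.MP_2f3286_ag.Top.Assembly
import Pool.Agent.Lib.MP_2f3286_ag.SFull.Defs

/-!
# Values at a place from the classes
-/

open WeierstrassCurve WeierstrassCurve.Affine WeierstrassCurve.Affine.Point

namespace Pool.Agent.Lib.MP_2f3286_ag.SFull

open Pool.Agent.Lib.MP_2f3286_ag.Top

section

variable {k kb K M : Type*} [Field k] [Field kb] [Algebra k kb] [Field K] [Field M]
    [Algebra K M] [Algebra kb M] {s : Gal(kb/k) →* Gal(M/K)} {A : ValuationSubring M}
    {ψ : A →+* kb}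

/-- the stabiliser of the values of `K` -/
def stab (K : Type*) [Field K] [Algebra K M] (A : ValuationSubring M) (ψ : A →+* kb) :
    Subgroup Gal(kb/k) where
  carrier := {σ | ∀ (f : K) (h : algebraMap K M f ∈ A), σ (ψ ⟨_, h⟩) = ψ ⟨_, h⟩}
  one_mem' := fun _ _ => rfl
  mul_mem' := fun {a b} ha hb f h => by rw [AlgEquiv.mul_apply, hb f h, ha f h]
  inv_mem' := fun {a} ha f h => by
    have h1 : a⁻¹ (a (ψ ⟨_, h⟩)) = ψ ⟨_, h⟩ := a.symm_apply_apply _
    rwa [ha f h] at h1

end

open scoped Classical in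
/-- The value of a point `η` at a place at which `s` is the section is given by the classes. -/
theorem hasValue_of_class {k : Type*} [Field k] [NumberField k] {W : WeierstrassCurve k}
    [W.IsElliptic] {kb K M : Type*} [Field kb] [Algebra k kb] [IsAlgClosure k kb] [Field K]
    [Field M] [Algebra k K] [Algebra K M] [Algebra k M] [IsScalarTower k K M] [Algebra kb M]
    [IsScalarTower k kb M] {s : Gal(kb/k) →* Gal(M/K)} {A : ValuationSubring M} {ψ : A →+* kb}
    (h : Sel.IsSectionAt s A ψ) (η : (W⁄K).Point) (R : (W⁄k).Point)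
    (hcl : ∀ n : ℕ, 1 ≤ n → Sel.SameClass s n η R) : Sel.HasValue A ψ η R := by
  have hac : IsAlgClosed kb := IsAlgClosure.isAlgClosed k
  have halg : Algebra.IsAlgebraic k kb := IsAlgClosure.isAlgebraic
  have hgal : IsGalois k kb := IsAlgClosure.isGalois k kb
  obtain ⟨h1, h2, h3, h4⟩ := h
  let Δ : Subgroup Gal(kb/k) := stab K A ψ
  have hΔ : IsOpen (Δ : Set Gal(kb/k)) := h3
  let k' : IntermediateField k kb := IntermediateField.fixedField Δ
  have hfix : k'.fixingSubgroup = Δ :=
    InfiniteGalois.fixingSubgroup_fixedField ⟨Δ, Subgroup.isClosed_of_isOpen Δ hΔ⟩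
  have hfd : FiniteDimensional k k' := by
    rw [← InfiniteGalois.isOpen_iff_finite, hfix]
    exact hΔ
  have hnf : NumberField k' := NumberField.of_module_finite k k'
  have hsp : ∀ {x : M} {a : kb}, Sp A ψ x a ↔ ∃ h : x ∈ A, ψ ⟨x, h⟩ = a := Iff.rfl
  have hpl : Top.IsPlaceOf (F := k') s (AlgHom.id k kb) A ψ := by
    refine ⟨⟨fun a ha => ?_⟩, h1, ?_⟩
    · have h5 := h2 a ha.ne_zero
      have h6 : a ≠ 0 := by
        rintro rfl
        rw [_root_.map_zero] at ha
        exact ha.ne_zero rfl
      refine IsUnit.of_mul_eq_one ⟨_, h5⟩ (Subtype.ext ?_)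
      exact mul_inv_cancel₀ (fun h7 => h6 (Subtype.ext h7))
    · rintro σ τ hστ m a ⟨hm, ha⟩
      have hσ : σ ∈ Δ := by
        rw [← hfix, IntermediateField.mem_fixingSubgroup_iff]
        intro x hx
        have h5 : σ x = τ x := hστ x
        rw [h5]
        exact τ.commutes ⟨x, hx⟩
      obtain ⟨h5, h6⟩ := h4 σ hσ ⟨m, hm⟩
      refine ⟨h5, ?_⟩
      rw [h6, ha]
      exact hστ a
  have hgal' : IsGalois k' kb := inferInstance
  have hval : hpl.valK s η = baseChange k k' R := by
    have h5 : hpl.valK s η - baseChange k k' R = 0 := by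
      apply eq_zero_of_divisible (W⁄k')
      intro n hn
      obtain ⟨z, hz⟩ := hpl.valK_class s (hcl n hn)
      exact ⟨z, by rw [hz, add_sub_cancel_left]⟩
    exact sub_eq_zero.mp h5
  have h5 : hpl.val s (baseChange K M η) = baseChange k kb R := by
    rw [← hpl.valK_spec s η, hval, bc_bc]
  have := hpl.isLocal
  rcases η with _ | ⟨a, b, hab⟩
  · show R = 0
    apply bc_injective k kb
    rw [← h5]
    rfl
  · have hns : (W⁄M).Nonsingular (algebraMap K M a) (algebraMap K M b) :=
      (Affine.baseChange_nonsingular W (Algebra.ofId K M).injective a b).mpr hab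
    by_cases ha : algebraMap K M a ∈ A
    · have h6 := sp_of_mem (φ := ψ) ha
      have h7 := sp_of_mem (φ := ψ) (mem_y (hpl.curveSp s) ha hns.1)
      have h8 := equation_iff_nonsingular.mp (h6.equation (hpl.curveSp s) h7 hns.1)
      have e1 : hpl.val s (baseChange K M (some a b hab)) = some _ _ h8 :=
        red_some (hpl.curveSp s) hns h6 h7 h8
      rw [e1] at h5
      rcases R with _ | ⟨a', b', h'⟩
      · exact absurd h5 (some_ne_zero _)
      · right
        have h9 := some_inj' h5
        exact ⟨a', b', h', rfl, ⟨ha, h9.1⟩, ⟨mem_y (hpl.curveSp s) ha hns.1, h9.2⟩⟩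
    · left
      refine ⟨ha, ?_⟩
      have e1 : hpl.val s (baseChange K M (some a b hab)) = 0 :=
        red_some_of_notMem (hpl.curveSp s) hns ha
      rw [e1] at h5
      show R = 0
      apply bc_injective k kb
      rw [← h5]
      rfl

end Pool.Agent.Lib.MP_2f3286_ag.SFull
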