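import Mathlib
import Pool.Agent.Lib.MP_2f3286_ag.Full.FullCoreAlt
import Pool.Agent.Lib.MP_2f3286_ag.Pt.OverDefs
import Pool.Agent.Lib.MP_2f3286_ag.Pt.Places
import Pool.Agent.Lib.MP_2f3286_ag.Pt.FinOver
import Pool.Agent.Lib.MP_2f3286_ag.Pt.MaxUnrOver
import Pool.Agent.Lib.MP_2f3286_ag.Pt.Division
import Pool.Agent.Lib.MP_2f3286_ag.SFull.Place
import Pool.Agent.Lib.MP_2f3286_ag.SFull.Val

/-!
# Sections of the fundamental group of a curve whose local points have one value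
-/

open Polynomial IntermediateField IsDedekindDomain NumberField

namespace Pool.Agent.Lib.MP_2f3286_ag.SFull

open Pool.Agent.Lib.MP_2f3286_ag.Pt Pool.Agent.Lib.MP_2f3286_ag.Full
  Pool.Agent.Lib.MP_2f3286_ag

/-- an automorphism acts on the integral closure -/
def gB {k K M : Type*} [Field k] [Field K] [Field M] [Algebra k K] [Algebra K M]
    (R : Subalgebra k K) (g : Gal(M/K)) : integralClosure R M →+* integralClosure R M :=
  ((g : M →+* M).comp (algebraMap (integralClosure R M) M)).codRestrict (integralClosure R M)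
    (fun b => b.2.map (g.toAlgHom.restrictScalars R))

theorem coe_gB {k K M : Type*} [Field k] [Field K] [Field M] [Algebra k K] [Algebra K M]
    (R : Subalgebra k K) (g : Gal(M/K)) (b : integralClosure R M) : (gB R g b : M) = g b := rfl

theorem sup_mem {k K M : Type*} [Field k] [Field K] [Field M] [Algebra k K] [Algebra K M]
    [Algebra k M] [IsScalarTower k K M]
    (V : ValuationSubring M) (hk : ∀ a : k, algebraMap k M a ∈ V) (R₀ : Subalgebra k K)
    (h0 : ∀ r : R₀, algebraMap K M r ∈ V) (t : K) (ht : algebraMap K M t ∈ V) :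
    ∀ x ∈ R₀ ⊔ Algebra.adjoin k {t}, algebraMap K M x ∈ V := by
  let VK : Subalgebra k K :=
    { (V.toSubring.comap (algebraMap K M)) with
      algebraMap_mem' := fun a => by
        change algebraMap K M (algebraMap k K a) ∈ V
        rw [← IsScalarTower.algebraMap_apply]
        exact hk a }
  have h1 : R₀ ⊔ Algebra.adjoin k {t} ≤ VK := by
    refine sup_le (fun x hx => h0 ⟨x, hx⟩) (Algebra.adjoin_le ?_)
    rintro x rfl
    exact ht
  exact fun x hx => h1 hx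

universe u in
theorem place_full {k : Type u} [Field k] [NumberField k]
    {K : Type*} [Field K] [Algebra k K] (t : K) (ht : Transcendental k t)
    [FiniteDimensional (adjoin k {t}) K] (R₀ : Subalgebra k K) (hfg : R₀.FG)
    {M : Type*} [Field M] [Algebra K M] [IsGalois K M]
    [Algebra (AlgebraicClosure k) M] [Algebra k M]
    [IsScalarTower k K M] [IsScalarTower k (AlgebraicClosure k) M]
    (hM : IsMaxUnramOver R₀ K M (AlgebraicClosure k))
    (s : Gal(AlgebraicClosure k/k) →* Gal(M/K)) (hs : Continuous s)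
    (hsec : ∀ σ a, s σ (algebraMap (AlgebraicClosure k) M a) =
      algebraMap (AlgebraicClosure k) M (σ a))
    (S : Finset (HeightOneSpectrum (𝓞 k)))
    (ι : ∀ v : {v : HeightOneSpectrum (𝓞 k) // v ∉ S},
      AlgebraicClosure k →ₐ[k] AlgebraicClosure (v.1.adicCompletion k))
    (A : {v : HeightOneSpectrum (𝓞 k) // v ∉ S} → ValuationSubring M)
    (φ : ∀ v : {v : HeightOneSpectrum (𝓞 k) // v ∉ S},
      A v →+* AlgebraicClosure (v.1.adicCompletion k))
    (hφ : ∀ v, Sel.IsPlaceOf s (v.1.adicCompletion k)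
      (ι v : _ →+* AlgebraicClosure (v.1.adicCompletion k)) (A v) (φ v))
    (hR₀ : ∀ v (r : R₀), algebraMap K M r ∈ A v) (c₀ : k)
    (hc : ∀ v, ∃ h : algebraMap K M t ∈ A v, φ v ⟨_, h⟩ = ι v (algebraMap k _ c₀)) :
    ∃ (A₀ : ValuationSubring M) (ψ₀ : A₀ →+* AlgebraicClosure k),
      (∀ r : R₀, algebraMap K M r ∈ A₀) ∧ Sel.IsSectionAt s A₀ ψ₀ ∧
      ∀ (A₁ : ValuationSubring M) (ψ₁ : A₁ →+* AlgebraicClosure k), Sel.IsSectionAt s A₁ ψ₁ →
        (∀ (f : K) (h : algebraMap K M f ∈ A₀), ∃ h' : algebraMap K M f ∈ A₁,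
          ψ₁ ⟨_, h'⟩ = ψ₀ ⟨_, h⟩) →
        A₁ = A₀ ∧ ∀ (a : A₁) (b : A₀), (a : M) = b → ψ₁ a = ψ₀ b := by
  classical
  set kb := AlgebraicClosure k with hkbdef
  let R' : Subalgebra k K := R₀ ⊔ Algebra.adjoin k {t}
  let R : Subalgebra k K := (integralClosure R' K).restrictScalars k
  have hmemR : ∀ x : K, x ∈ R ↔ IsIntegral R' x := fun x => Iff.rfl
  have hR'R : R' ≤ R := fun x hx => (isIntegral_algebraMap (R := R') (A := K) (x := ⟨x, hx⟩))
  have hR₀R : R₀ ≤ R := le_trans le_sup_left hR'R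
  have htR : t ∈ R := hR'R ((le_sup_right : Algebra.adjoin k {t} ≤ R')
    (Algebra.subset_adjoin (Set.mem_singleton t)))
  have hRn : ∀ x : K, IsIntegral R x → x ∈ R := by
    intro x hx
    have hx' : IsIntegral (integralClosure R' K) x := hx
    exact isIntegral_trans x hx'
  have hBk : ∀ a : kb, IsIntegral R (algebraMap kb M a) := by
    intro a
    have h1 : IsIntegral k a := Algebra.IsIntegral.isIntegral a
    have h2 : IsIntegral k (algebraMap kb M a) := h1.algebraMap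
    exact h2.tower_top
  -- the ring of the affine curve is contained in valuation rings containing `R₀` and `t`
  have hRV : ∀ V : ValuationSubring M, (∀ a : k, algebraMap k M a ∈ V) →
      (∀ r : R₀, algebraMap K M r ∈ V) → algebraMap K M t ∈ V →
      ∀ b : integralClosure R M, (b : M) ∈ V := by
    intro V h0 h1 h2 b
    refine PTAux.mem_of_isIntegral (R := R) (fun r => ?_) b.2
    have h3 : IsIntegral R' (r : K) := (hmemR _).mp r.2
    have h4 : IsIntegral R' (algebraMap K M (r : K)) := h3.map (IsScalarTower.toAlgHom R' K M)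
    exact PTAux.mem_of_isIntegral (R := R') (fun r' => sup_mem V h0 R₀ h1 t h2 r' r'.2) h4
  have hkA : ∀ v (a : k), algebraMap k M a ∈ A v := by
    intro v a
    obtain ⟨h, -⟩ := (hφ v).1 (algebraMap k kb a)
    rwa [← IsScalarTower.algebraMap_apply] at h
  have hBA : ∀ v (b : integralClosure R M), (b : M) ∈ A v := fun v =>
    hRV (A v) (hkA v) (hR₀ v) (hc v).1
  let φB : ∀ v : {v : HeightOneSpectrum (𝓞 k) // v ∉ S},
      integralClosure R M →+* AlgebraicClosure (v.1.adicCompletion k) := fun v =>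
    (φ v).comp ((algebraMap (integralClosure R M) M).codRestrict (A v) (hBA v))
  have hφB : ∀ v (b : integralClosure R M), φB v b = φ v ⟨b, hBA v b⟩ := fun v b => rfl
  have hresp : ∀ v, Respects s (v.1.adicCompletion k)
      (ι v : _ →+* AlgebraicClosure (v.1.adicCompletion k)) (φB v) := by
    intro v
    obtain ⟨h1, -, h2⟩ := hφ v
    refine ⟨fun a b hab => ?_, fun σ τ hστ b b' hb => ?_⟩
    · obtain ⟨h3, h4⟩ := h1 a
      rw [hφB, ← h4]
      congr 1
      exact Subtype.ext hab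
    · obtain ⟨h3, h4⟩ := h2 σ τ hστ ⟨b, hBA v b⟩
      rw [hφB, hφB, ← h4]
      congr 1
      exact Subtype.ext hb
  have hunO : IsUnramOver R₀ K M kb := unramOver_of_max t ht R₀ hM
  have hmaxO : IsRadClosedOver R₀ M kb := radClosedOver_of_max R₀ hM
  obtain ⟨Δ, Ψ, hΔ, hΨk, hΨt, hΨΔ, huniq, -⟩ := full_core_alt t ht R htR hRn
    (fun Ψ hΨ g _ hg => hun_of_over t ht R₀ R hR₀R htR hunO Ψ hΨ g hg)
    (fun B hBN ⟨O, hO, hON⟩ ℓ _ => fin_lift_over t ht R₀ hfg hunO hmaxO (geomGroup K M kb)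
      (fun g => mem_geomGroup) B hBN O hO hON ℓ) s hs hsec S ι φB hresp c₀ (fun v => by
        obtain ⟨h1, h2⟩ := hc v
        rw [hφB, ← h2]
        rfl)
  obtain ⟨A₀, ψ₀, hA₀, hBψ, hmul, hunit⟩ := exists_place t ht R htR Ψ hΨk
  -- the action of an element which respects the point
  have hact : ∀ σ : Gal(kb/k), (∀ b b' : integralClosure R M, (b' : M) = s σ b → Ψ b' = σ (Ψ b)) →
      ∀ x : A₀, ∃ h : s σ x ∈ A₀, ψ₀ ⟨s σ x, h⟩ = σ (ψ₀ x) := by
    intro σ hσ x
    obtain ⟨a, b, hb, hab⟩ := (hA₀ x).mp x.2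
    have hσa := hσ a (gB R (s σ) a) (coe_gB R (s σ) a)
    have hσb := hσ b (gB R (s σ) b) (coe_gB R (s σ) b)
    have hb' : Ψ (gB R (s σ) b) ≠ 0 := by
      rw [hσb]
      exact fun h0 => hb ((map_eq_zero σ).mp h0)
    have hab' : s σ x * (gB R (s σ) b : M) = gB R (s σ) a := by
      rw [coe_gB, coe_gB, ← hab, map_mul]
    have hmem : s σ x ∈ A₀ := (hA₀ _).mpr ⟨_, _, hb', hab'⟩
    refine ⟨hmem, mul_right_cancel₀ hb' ?_⟩
    rw [hmul ⟨s σ x, hmem⟩ _ _ hab', hσa, hσb, ← map_mul, hmul x a b hab]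
  have hkA₀ : ∀ a : kb, ∃ h : algebraMap kb M a ∈ A₀, ψ₀ ⟨algebraMap kb M a, h⟩ = a := by
    intro a
    obtain ⟨h1, h2⟩ := hBψ ⟨algebraMap kb M a, hBk a⟩
    exact ⟨h1, by rw [h2]; exact hΨk a _ rfl⟩
  have hstab : Δ ≤ stab K A₀ ψ₀ := by
    intro σ hσ f h
    obtain ⟨h1, h2⟩ := hact σ (hΨΔ σ hσ) ⟨algebraMap K M f, h⟩
    rw [← h2]
    congr 1
    exact Subtype.ext ((s σ).commutes f)
  have hopen : IsOpen ((stab K A₀ ψ₀ : Subgroup Gal(kb/k)) : Set Gal(kb/k)) :=
    Subgroup.isOpen_mono hstab hΔ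
  have hRA₀ : ∀ r : R, algebraMap K M r ∈ A₀ := by
    intro r
    obtain ⟨h1, -⟩ := hBψ (algebraMap R _ r)
    exact h1
  refine ⟨A₀, ψ₀, fun r => hRA₀ ⟨r, hR₀R r.2⟩, ⟨hkA₀, hunit, hopen, ?_⟩, ?_⟩
  · -- the elements of the stabiliser
    intro σ hσ
    apply hact
    have hΨ' : (σ : kb →+* kb).comp (Ψ.comp (gB R (s σ)⁻¹)) = Ψ := by
      refine huniq _ (fun a b hab => ?_) (fun r => ?_)
        ⟨Δ.comap (MulAut.conj σ⁻¹).toMonoidHom, ?_, fun τ hτ b b' hb => ?_⟩
      · have h1 : Ψ (gB R (s σ)⁻¹ b) = σ⁻¹ a := by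
          apply hΨk
          rw [coe_gB, hab, ← map_inv]
          exact hsec σ⁻¹ a
        change σ (Ψ (gB R (s σ)⁻¹ b)) = a
        rw [h1]
        exact σ.apply_symm_apply a
      · have h1 : gB R (s σ)⁻¹ (algebraMap R _ r) = algebraMap R _ r := by
          apply Subtype.ext
          exact (s σ)⁻¹.commutes (r : K)
        change σ (Ψ (gB R (s σ)⁻¹ (algebraMap R _ r))) = Ψ (algebraMap R _ r)
        rw [h1]
        obtain ⟨h2, h3⟩ := hBψ (algebraMap R _ r)
        rw [← h3]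
        exact hσ (r : K) h2
      · exact hΔ.preimage (by
          change Continuous fun x => σ⁻¹ * x * σ⁻¹⁻¹
          fun_prop)
      · have h1 : σ⁻¹ * τ * σ ∈ Δ := by
          have h2 : σ⁻¹ * τ * σ⁻¹⁻¹ ∈ Δ := hτ
          rwa [inv_inv] at h2
        have h3 : ((gB R (s σ)⁻¹ b' : integralClosure R M) : M) =
            s (σ⁻¹ * τ * σ) (gB R (s σ)⁻¹ b : integralClosure R M) := by
          rw [coe_gB, coe_gB, hb, ← AlgEquiv.mul_apply, ← AlgEquiv.mul_apply, ← map_inv,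
            ← map_mul, ← map_mul]
          congr 2
          group
        have h4 := hΨΔ _ h1 _ _ h3
        change σ (Ψ (gB R (s σ)⁻¹ b')) = τ (σ (Ψ (gB R (s σ)⁻¹ b)))
        rw [h4, ← AlgEquiv.mul_apply, ← AlgEquiv.mul_apply]
        congr 1
        group
    intro b b' hb
    have h1 := RingHom.congr_fun hΨ' b'
    rw [← h1]
    change σ (Ψ (gB R (s σ)⁻¹ b')) = σ (Ψ b)
    congr 2
    apply Subtype.ext
    rw [coe_gB, hb]
    exact (s σ).symm_apply_apply _
  · -- uniqueness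
    intro A₁ ψ₁ ⟨g1, g2, g3, g4⟩ hK
    have hkA₁ : ∀ a : k, algebraMap k M a ∈ A₁ := by
      intro a
      obtain ⟨h, -⟩ := g1 (algebraMap k kb a)
      rwa [← IsScalarTower.algebraMap_apply] at h
    have hBA₁ : ∀ b : integralClosure R M, (b : M) ∈ A₁ :=
      hRV A₁ hkA₁ (fun r => (hK _ (hRA₀ ⟨r, hR₀R r.2⟩)).1) (hK _ (hRA₀ ⟨t, htR⟩)).1
    let Ψ₁ : integralClosure R M →+* kb :=
      ψ₁.comp ((algebraMap (integralClosure R M) M).codRestrict A₁ hBA₁)
    have hΨ₁ : ∀ b, Ψ₁ b = ψ₁ ⟨b, hBA₁ b⟩ := fun b => rfl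
    have e : Ψ₁ = Ψ := by
      refine huniq _ (fun a b hab => ?_) (fun r => ?_)
        ⟨stab K A₁ ψ₁, g3, fun τ hτ b b' hb => ?_⟩
      · obtain ⟨h1, h2⟩ := g1 a
        rw [hΨ₁, ← h2]
        congr 1
        exact Subtype.ext hab
      · obtain ⟨h1, h2⟩ := hK (r : K) (hRA₀ r)
        obtain ⟨h3, h4⟩ := hBψ (algebraMap R _ r)
        rw [← h4, hΨ₁]
        exact h2
      · obtain ⟨h1, h2⟩ := g4 τ hτ ⟨b, hBA₁ b⟩
        rw [hΨ₁, hΨ₁, ← h2]
        congr 1
        exact Subtype.ext hb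
    have hle : ∀ x : A₀, ∃ h : (x : M) ∈ A₁, ψ₁ ⟨x, h⟩ = ψ₀ x := by
      intro x
      obtain ⟨a, b, hb, hab⟩ := (hA₀ x).mp x.2
      have h1 : ψ₁ ⟨b, hBA₁ b⟩ = Ψ b := by rw [← hΨ₁, e]
      have h2 : ψ₁ ⟨a, hBA₁ a⟩ = Ψ a := by rw [← hΨ₁, e]
      have h3 : (b : M)⁻¹ ∈ A₁ := g2 ⟨b, hBA₁ b⟩ (by rw [h1]; exact hb)
      have hb0 : (b : M) ≠ 0 := by
        intro h0
        apply hb
        rw [show b = 0 from Subtype.ext h0, map_zero]
      have h4 : (x : M) = a * (b : M)⁻¹ := by rw [← hab, mul_inv_cancel_right₀ hb0]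
      have h5 : (x : M) ∈ A₁ := by rw [h4]; exact A₁.mul_mem _ _ (hBA₁ a) h3
      refine ⟨h5, mul_right_cancel₀ hb ?_⟩
      rw [hmul x a b hab, ← h2, ← h1, ← map_mul]
      congr 1
      exact Subtype.ext hab
    have hge : ∀ x ∈ A₁, x ∈ A₀ := by
      intro x hx
      rcases A₀.mem_or_inv_mem x with h | h
      · exact h
      by_contra hx0
      have h1 : ψ₀ ⟨x⁻¹, h⟩ = 0 := by
        by_contra h2
        apply hx0
        have := hunit ⟨x⁻¹, h⟩ h2
        rwa [inv_inv] at this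
      obtain ⟨h2, h3⟩ := hle ⟨x⁻¹, h⟩
      have hx1 : x ≠ 0 := by
        rintro rfl
        exact hx0 A₀.zero_mem
      have h4 : (⟨x, hx⟩ : A₁) * ⟨x⁻¹, h2⟩ = 1 := Subtype.ext (mul_inv_cancel₀ hx1)
      have h5 := congrArg ψ₁ h4
      rw [map_mul, map_one, h3, h1, mul_zero] at h5
      exact zero_ne_one h5
    refine ⟨?_, fun a b hab => ?_⟩
    · ext x
      exact ⟨hge x, fun hx => (hle ⟨x, hx⟩).1⟩
    · obtain ⟨h1, h2⟩ := hle b
      rw [← h2]
      congr 1
      exact Subtype.ext hab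

end Pool.Agent.Lib.MP_2f3286_ag.SFull
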