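import Mathlib
import Pool.Agent.Lib.MP_2f3286_ag.SFull.Main
import Pool.Agent.Lib.MP_2f3286_ag.Top.FF
import Pool.Agent.Lib.MP_2f3286_ag.Top.Assembly

/-!
# Sections of the fundamental group of a curve with two independent maps to an elliptic curve
-/

open WeierstrassCurve WeierstrassCurve.Affine WeierstrassCurve.Affine.Point
open IsDedekindDomain NumberField

namespace Pool.Agent.Lib.MP_2f3286_ag.SFull

open Pool.Agent.Lib.MP_2f3286_ag.Pt Pool.Agent.Lib.MP_2f3286_ag.Top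
  Pool.Agent.Lib.MP_2f3286_ag

open IntermediateField in
theorem finite_of_fg {k K : Type*} [Field k] [Field K] [Algebra k K]
    (htr : Algebra.trdeg k K = 1) (hK : (⊤ : IntermediateField k K).FG) {f : K}
    (hf : Transcendental k f) : FiniteDimensional k⟮f⟯ K := by
  obtain ⟨s, hs⟩ := hK
  obtain ⟨K₀, h1, h2⟩ := exists_field htr hf s
  have h3 : K₀ = ⊤ := by
    rw [eq_top_iff]
    intro x _
    have h4 : adjoin k (s : Set K) ≤ K₀.restrictScalars k :=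
      adjoin_le_iff.mpr fun x hx => h2 x hx
    rw [hs] at h4
    exact h4 (IntermediateField.mem_top (x := x))
  rw [h3] at h1
  exact FiniteDimensional.of_surjective (IntermediateField.topEquiv (F := k⟮f⟯) (E := K)).toLinearMap
    (IntermediateField.topEquiv (F := k⟮f⟯) (E := K)).surjective

open scoped Classical in
/-- a transcendental function which has one value at all the local points -/
theorem exists_t {k : Type*} [Field k] [NumberField k]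
    (W : WeierstrassCurve k) [W.IsElliptic]
    {K M : Type*} [Field K] [Field M] [Algebra k K] [Algebra K M]
    [Algebra (AlgebraicClosure k) M] [Algebra k M] [IsScalarTower k K M]
    [IsScalarTower k (AlgebraicClosure k) M] (η₁ : (W⁄K).Point)
    (hη₁ : ¬ ∃ Q : (W⁄k).Point, η₁ = baseChange k K Q)
    (s : Gal(AlgebraicClosure k/k) →* Gal(M/K))
    (hsec : ∀ σ a, s σ (algebraMap (AlgebraicClosure k) M a) =
      algebraMap (AlgebraicClosure k) M (σ a))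
    (S : Finset (HeightOneSpectrum (𝓞 k)))
    (ι : ∀ v : {v : HeightOneSpectrum (𝓞 k) // v ∉ S},
      AlgebraicClosure k →ₐ[k] AlgebraicClosure (v.1.adicCompletion k))
    (A : {v : HeightOneSpectrum (𝓞 k) // v ∉ S} → ValuationSubring M)
    (φ : ∀ v : {v : HeightOneSpectrum (𝓞 k) // v ∉ S},
      A v →+* AlgebraicClosure (v.1.adicCompletion k))
    (P : (W⁄k).Point) (hP : ∀ n : ℕ, n ≠ 0 → n • P ≠ 0)
    (Ψ : (W⁄K).Point →+ (W⁄k).Point)
    (hval : ∀ v η, Sel.HasValue (A v) (φ v) η (baseChange k (v.1.adicCompletion k) (Ψ η)))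
    (h3 : ∀ η R, (∀ n : ℕ, 1 ≤ n → Sel.SameClass s n η R) → R = Ψ η) :
    ∃ (f : K) (a : k), Transcendental k f ∧
      ∀ v, ∃ h : algebraMap K M f ∈ A v, φ v ⟨_, h⟩ = ι v (algebraMap k _ a) := by
  have hk : ∀ c : K, IsAlgebraic k c → ∃ c₀ : k, algebraMap k K c₀ = c :=
    fun c hc => const_of_algebraic s hsec hc
  have hconst : Ψ (baseChange k K P) = P :=
    (h3 _ P fun n _ => isClass_const s n P).symm
  obtain ⟨η, hη, hηΨ⟩ : ∃ η : (W⁄K).Point, (¬ ∃ Q : (W⁄k).Point, η = baseChange k K Q) ∧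
      Ψ η ≠ 0 := by
    by_cases h0 : Ψ η₁ = 0
    · refine ⟨η₁ + baseChange k K P, ?_, ?_⟩
      · rintro ⟨Q, hQ⟩
        exact hη₁ ⟨Q - P, by rw [map_sub, ← hQ, add_sub_cancel_right]⟩
      · rw [map_add, h0, zero_add, hconst]
        have := hP 1 one_ne_zero
        rwa [one_smul] at this
    · exact ⟨η₁, hη₁, h0⟩
  obtain ⟨f, g, hfg, hηe, hft, hf⟩ := const_point hk η hη
  rcases hΨ : Ψ η with _ | ⟨a, b, hab⟩
  · exact absurd hΨ hηΨ
  refine ⟨f, a, hft, fun v => ?_⟩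
  have h5 := hval v η
  rw [hΨ, hηe] at h5
  rcases h5 with ⟨-, h6⟩ | ⟨a', b', h', h6, ⟨h7, h8⟩, -⟩
  · exact absurd h6 (some_ne_zero _)
  · refine ⟨h7, ?_⟩
    rw [h8, AlgHom.commutes, ← (some_inj' h6).1]
    exact (IsScalarTower.algebraMap_apply k (v.1.adicCompletion k) _ a).symm

section sep

variable {k kb K M : Type*} [Field k] [Field kb] [Algebra k kb] [Field K] [Field M]
    [Algebra k K] [Algebra K M] [Algebra kb M] [Algebra k M] [IsScalarTower k K M]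
    [IsScalarTower k kb M] {s : Gal(kb/k) →* Gal(M/K)} {A : ValuationSubring M}
    {ψ : A →+* kb}

/-- If the values of the points determine the place on `K`, then `s` is its section over `k`. -/
theorem isPlaceOf_of_sep (hsec : ∀ σ a, s σ (algebraMap kb M a) = algebraMap kb M (σ a))
    (h : Sel.IsSectionAt s A ψ) {W : WeierstrassCurve k} (Ψ : (W⁄K).Point → (W⁄k).Point)
    (hval : ∀ η, Sel.HasValue A ψ η (Ψ η))
    (hsep : ∀ (A₁ : ValuationSubring M) (ψ₁ : A₁ →+* kb),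
      (∀ a : kb, ∃ h : algebraMap kb M a ∈ A₁, ψ₁ ⟨algebraMap kb M a, h⟩ = a) →
      (∀ x : A₁, ψ₁ x ≠ 0 → (x : M)⁻¹ ∈ A₁) → (∀ η, Sel.HasValue A₁ ψ₁ η (Ψ η)) →
      ∀ (f : K) (h : algebraMap K M f ∈ A), ∃ h' : algebraMap K M f ∈ A₁,
        ψ₁ ⟨_, h'⟩ = ψ ⟨_, h⟩) :
    Sel.IsPlaceOf s k (RingHom.id kb) A ψ := by
  obtain ⟨h1, h2, h3, h4⟩ := h
  have hall : ∀ σ : Gal(kb/k), ∀ (f : K) (h : algebraMap K M f ∈ A),
      σ (ψ ⟨_, h⟩) = ψ ⟨_, h⟩ := by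
    intro σ f hf
    let g : M →+* M := ((s σ)⁻¹ : Gal(M/K))
    let A₁ : ValuationSubring M := A.comap g
    have hA₁ : ∀ x, x ∈ A₁ ↔ (s σ)⁻¹ x ∈ A := fun x => Iff.rfl
    let ψ₁ : A₁ →+* kb := (σ : kb →+* kb).comp (ψ.comp
      ((g.comp A₁.subtype).codRestrict A (fun x => (hA₁ x).mp x.2)))
    have hψ₁ : ∀ x : A₁, ψ₁ x = σ (ψ ⟨(s σ)⁻¹ x, (hA₁ x).mp x.2⟩) := fun x => rfl
    have hK : ∀ x : K, (s σ)⁻¹ (algebraMap K M x) = algebraMap K M x := fun x =>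
      ((s σ)⁻¹).commutes x
    have hKA : ∀ x : K, algebraMap K M x ∈ A₁ ↔ algebraMap K M x ∈ A := by
      intro x
      rw [hA₁, hK]
    have hKψ : ∀ (x : K) (hx : algebraMap K M x ∈ A₁) (hx' : algebraMap K M x ∈ A),
        ψ₁ ⟨_, hx⟩ = σ (ψ ⟨_, hx'⟩) := by
      intro x hx hx'
      rw [hψ₁]
      congr 2
      exact Subtype.ext (hK x)
    have p1 : ∀ a : kb, ∃ h : algebraMap kb M a ∈ A₁, ψ₁ ⟨algebraMap kb M a, h⟩ = a := by
      intro a
      have e1 : (s σ)⁻¹ (algebraMap kb M a) = algebraMap kb M (σ⁻¹ a) := by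
        rw [← map_inv]
        exact hsec σ⁻¹ a
      obtain ⟨h5, h6⟩ := h1 (σ⁻¹ a)
      have h7 : algebraMap kb M a ∈ A₁ := by
        rw [hA₁, e1]
        exact h5
      refine ⟨h7, ?_⟩
      rw [hψ₁]
      have e2 : (⟨(s σ)⁻¹ (algebraMap kb M a), (hA₁ _).mp h7⟩ : A) =
        ⟨algebraMap kb M (σ⁻¹ a), h5⟩ := Subtype.ext e1
      rw [e2, h6]
      exact σ.apply_symm_apply a
    have p2 : ∀ x : A₁, ψ₁ x ≠ 0 → (x : M)⁻¹ ∈ A₁ := by
      intro x hx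
      rw [hψ₁] at hx
      have h5 := h2 ⟨(s σ)⁻¹ x, (hA₁ x).mp x.2⟩ fun h0 => hx (by rw [h0, _root_.map_zero])
      rw [hA₁, map_inv₀]
      exact h5
    have p3 : ∀ η, Sel.HasValue A₁ ψ₁ η (Ψ η) := by
      intro η
      have h5 := hval η
      rcases η with _ | ⟨a, b, hab⟩
      · exact h5
      · rcases h5 with ⟨h6, h7⟩ | ⟨a', b', h', h6, ⟨h7, h8⟩, ⟨h9, h10⟩⟩
        · exact Or.inl ⟨fun h8 => h6 ((hKA _).mp h8), h7⟩
        · refine Or.inr ⟨a', b', h', h6, ⟨(hKA _).mpr h7, ?_⟩, ⟨(hKA _).mpr h9, ?_⟩⟩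
          · rw [hKψ _ _ h7, h8]
            exact σ.commutes a'
          · rw [hKψ _ _ h9, h10]
            exact σ.commutes b'
    obtain ⟨h', e⟩ := hsep A₁ ψ₁ p1 p2 p3 f hf
    exact (hKψ f h' hf).symm.trans e
  refine ⟨fun a => h1 a, h2, fun σ τ hστ x => ?_⟩
  obtain ⟨h5, h6⟩ := h4 σ (hall σ) x
  refine ⟨h5, ?_⟩
  rw [h6]
  exact hστ _

end sep

open scoped Classical in
universe u in
theorem sel_full {k : Type u} [Field k] [NumberField k]
    (W : WeierstrassCurve k) [W.IsShortNF] [W.IsElliptic]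
    (P : (W⁄k).Point) (hP : ∀ n : ℕ, n ≠ 0 → n • P ≠ 0)
    (hrk : ∀ Q : (W⁄k).Point, ∃ a : ℤ, IsOfFinAddOrder (Q - a • P))
    (S : Finset (HeightOneSpectrum (𝓞 k))) (m : ℕ) (hm : 1 ≤ m) (hsha : Sel.ShaKilledBy W S m)
    {K : Type*} [Field K] [Algebra k K] (hK : (⊤ : IntermediateField k K).FG)
    (htr : Algebra.trdeg k K = 1) (η₁ η₂ : (W⁄K).Point)
    (hind : ∀ a b : ℤ, (∃ Q : (W⁄k).Point, a • η₁ + b • η₂ = Point.baseChange k K Q) →
      a = 0 ∧ b = 0)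
    (R : Subalgebra k K) (hR : R.FG)
    {M : Type*} [Field M] [Algebra K M] [IsGalois K M]
    [Algebra (AlgebraicClosure k) M] [Algebra k M] [IsScalarTower k K M]
    [IsScalarTower k (AlgebraicClosure k) M]
    (hM : IsMaxUnramOver R K M (AlgebraicClosure k))
    (s : Gal(AlgebraicClosure k/k) →* Gal(M/K)) (hs : Continuous s)
    (hsec : ∀ σ a, s σ (algebraMap (AlgebraicClosure k) M a) =
      algebraMap (AlgebraicClosure k) M (σ a))
    (ι : ∀ v : {v : HeightOneSpectrum (𝓞 k) // v ∉ S},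
      AlgebraicClosure k →ₐ[k] AlgebraicClosure (v.1.adicCompletion k))
    (A : {v : HeightOneSpectrum (𝓞 k) // v ∉ S} → ValuationSubring M)
    (φ : ∀ v : {v : HeightOneSpectrum (𝓞 k) // v ∉ S},
      A v →+* AlgebraicClosure (v.1.adicCompletion k))
    (hφ : ∀ v, Sel.IsPlaceOf s (v.1.adicCompletion k)
      (ι v : _ →+* AlgebraicClosure (v.1.adicCompletion k)) (A v) (φ v))
    (hA : ∀ v (r : R), algebraMap K M r ∈ A v) :
    ∃ (Ψ : (W⁄K).Point →+ (W⁄k).Point) (A₀ : ValuationSubring M)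
      (ψ₀ : A₀ →+* AlgebraicClosure k),
      (∀ v η, Sel.HasValue (A v) (φ v) η (Point.baseChange k (v.1.adicCompletion k) (Ψ η))) ∧
      (∀ η, Sel.HasValue A₀ ψ₀ η (Ψ η)) ∧
      (∀ r : R, algebraMap K M r ∈ A₀) ∧ Sel.IsSectionAt s A₀ ψ₀ ∧
      (∀ (A₁ : ValuationSubring M) (ψ₁ : A₁ →+* AlgebraicClosure k),
        Sel.IsSectionAt s A₁ ψ₁ →
        (∀ (f : K) (h : algebraMap K M f ∈ A₀), ∃ h' : algebraMap K M f ∈ A₁,
          ψ₁ ⟨_, h'⟩ = ψ₀ ⟨_, h⟩) →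
        A₁ = A₀ ∧ ∀ (a : A₁) (b : A₀), (a : M) = b → ψ₁ a = ψ₀ b) ∧
      ((∀ (A₁ : ValuationSubring M) (ψ₁ : A₁ →+* AlgebraicClosure k),
          (∀ a, ∃ h : algebraMap (AlgebraicClosure k) M a ∈ A₁, ψ₁ ⟨_, h⟩ = a) →
          (∀ x : A₁, ψ₁ x ≠ 0 → (x : M)⁻¹ ∈ A₁) → (∀ η, Sel.HasValue A₁ ψ₁ η (Ψ η)) →
          ∀ (f : K) (h : algebraMap K M f ∈ A₀), ∃ h' : algebraMap K M f ∈ A₁,
            ψ₁ ⟨_, h'⟩ = ψ₀ ⟨_, h⟩) →
        Sel.IsPlaceOf s k (RingHom.id _) A₀ ψ₀) := by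
  obtain ⟨Ψ, h1, h2, h3, -, -⟩ := assembly W htr η₁ η₂ hind s hs hsec S ι A φ hφ P hP hrk m hm
    hsha (fun η n hn => division_of_maxOver R hM W η n hn)
  have hη₁ : ¬ ∃ Q : (W⁄k).Point, η₁ = baseChange k K Q := by
    rintro ⟨Q, hQ⟩
    have := (hind 1 0 ⟨Q, by rw [one_smul, zero_smul, add_zero]; exact hQ⟩).1
    exact one_ne_zero this
  obtain ⟨t, c₀, ht, hc⟩ := exists_t W η₁ hη₁ s hsec S ι A φ P hP Ψ h1 h3
  have hfd := finite_of_fg htr hK ht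
  obtain ⟨A₀, ψ₀, g1, g2, g3⟩ := place_full t ht R hR hM s hs hsec S ι A φ hφ hA c₀ hc
  have hval : ∀ η, Sel.HasValue A₀ ψ₀ η (Ψ η) := fun η =>
    hasValue_of_class g2 η (Ψ η) (h2 η)
  exact ⟨Ψ, A₀, ψ₀, h1, hval, g1, g2, g3, fun hsep => isPlaceOf_of_sep hsec g2 Ψ hval hsep⟩

end Pool.Agent.Lib.MP_2f3286_ag.SFull
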